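import Mathlib
import Pool.Agent.H97R3.LRThm

set_option autoImplicit false

namespace Pool.Agent.Results.MP_a112e0_al.EmbedPermExtension

open Pool.Agent.H97R3.LR

/-- Property (LR): every finitely generated subgroup `H` is a retract of some finite index subgroup
`K` containing it. -/
def PropertyLR (G : Type) [Group G] : Prop :=
  ∀ H : Subgroup G, H.FG →
    ∃ K : Subgroup G, K.FiniteIndex ∧ H ≤ K ∧
      ∃ ρ : K →* G, (∀ k : K, ρ k ∈ H) ∧
        ∀ h : G, ∀ hk : h ∈ K, h ∈ H → ρ ⟨h, hk⟩ = h

/-- Let a finite group `A` act on a set `X` (finite or infinite), hence on the free group `F(X)` by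
permuting the basis. Every group that embeds in `F(X) ⋊ A` has property (LR). -/
theorem result : ∀ (A X G : Type) [Group A] [Finite A] [MulAction A X] [Group G]
    (f : G →* FreeGroup X ⋊[permAct A X] A), Function.Injective f → PropertyLR G := by
  intro A X G _ _ _ _ f hf H hH
  exact main_embed f hf H hH

end Pool.Agent.Results.MP_a112e0_al.EmbedPermExtension
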